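import Mathlib

set_option autoImplicit false

/-!
# Avoider keeps at most one cycle under linear bias

In the `(1 : b)` Avoider-Enforcer game on the edge set of `K_n` with `b ≥ 12 n`, Avoider (moving
first) has a strategy after which his final graph contains at most one cycle.  This holds under
the strict and under the monotone rules.
-/

namespace Pool.Agent.Results.MP_24f62a_co.LinearBias

open Finset SimpleGraph

/-- `X` is a legal claim, from the set `U` of unclaimed edges, for a player with the given bias.
Monotone rules (`mono = true`): at least `bias` edges; strict rules: exactly `bias` edges; in both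
cases all the remaining edges if there are fewer than `bias`. -/
def Legal (mono : Bool) (bias : ℕ) {n : ℕ} (U X : Finset (Sym2 (Fin n))) : Prop :=
  X ⊆ U ∧ (if mono then min bias U.card ≤ X.card else X.card = min bias U.card)

/-- The graph with edge set `A` contains at most one cycle: any two cycles in it have the same
edges. -/
def AtMostOneCycle {n : ℕ} (A : Finset (Sym2 (Fin n))) : Prop :=
  ∀ (u v : Fin n) (p : (fromEdgeSet (A : Set (Sym2 (Fin n)))).Walk u u)
    (q : (fromEdgeSet (A : Set (Sym2 (Fin n)))).Walk v v),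
    p.IsCycle → q.IsCycle → ∀ e, e ∈ p.edges ↔ e ∈ q.edges

/-- `AvoiderWins n b mono A U`: in the position of the `(1 : b)` game on the edges of `K_n` in
which Avoider has claimed the edges `A`, the edges `U` are unclaimed and Avoider is to move,
Avoider can guarantee that his final graph contains at most one cycle. -/
inductive AvoiderWins (n b : ℕ) (mono : Bool) :
    Finset (Sym2 (Fin n)) → Finset (Sym2 (Fin n)) → Prop
  | over (A : Finset (Sym2 (Fin n))) : AtMostOneCycle A → AvoiderWins n b mono A ∅
  | move (A U X : Finset (Sym2 (Fin n))) : U.Nonempty → Legal mono 1 U X →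
      (∀ Y, Legal mono b (U \ X) Y → AvoiderWins n b mono (A ∪ X) ((U \ X) \ Y)) →
      AvoiderWins n b mono A U

/-! ### A forest plus an edge has at most one cycle -/

lemma cyc_path {V : Type*} [DecidableEq V] {G : SimpleGraph V} {x y : V} {u : V}
    (hG : G.IsAcyclic) (p : (G ⊔ edge x y).Walk u u) (hp : p.IsCycle) :
    ∃ r : G.Walk y x, r.IsPath ∧ ∀ e, e ∈ p.edges ↔ e = s(x, y) ∨ e ∈ r.edges := by
  have hmem : s(x, y) ∈ p.edges := by
    by_contra hn
    have hE : ∀ e ∈ p.edges, e ∈ G.edgeSet := by
      intro e he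
      have h1 := p.edges_subset_edgeSet he
      rw [edgeSet_sup] at h1
      rcases h1 with h1 | h1
      · exact h1
      · exfalso
        have h2 : e = s(x, y) := by
          induction e with
          | _ a b =>
            rw [mem_edgeSet, edge_adj] at h1
            rcases h1.1 with ⟨rfl, rfl⟩ | ⟨rfl, rfl⟩
            · rfl
            · exact Sym2.eq_swap
        exact hn (h2 ▸ he)
    exact hG (p.transfer G hE) (hp.transfer hE)
  have hx : x ∈ p.support := p.fst_mem_support_of_mem_edges hmem
  obtain ⟨q, hq, hqe⟩ : ∃ q : (G ⊔ edge x y).Walk x x, q.IsCycle ∧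
      ∀ e, e ∈ p.edges ↔ e ∈ q.edges :=
    ⟨p.rotate x hx, hp.rotate hx, fun e => (p.rotate_edges x hx).perm.mem_iff.symm⟩
  obtain ⟨q', hq', hqe', hsnd⟩ : ∃ q' : (G ⊔ edge x y).Walk x x, q'.IsCycle ∧
      (∀ e, e ∈ p.edges ↔ e ∈ q'.edges) ∧ q'.snd = y := by
    have h1 : y ∈ q.toSubgraph.neighborSet x := by
      show q.toSubgraph.Adj x y
      rw [← Subgraph.mem_edgeSet, Walk.mem_edges_toSubgraph]
      exact (hqe _).1 hmem
    rw [hq.neighborSet_toSubgraph_endpoint] at h1
    rcases h1 with h1 | h1
    · exact ⟨q, hq, hqe, h1.symm⟩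
    · refine ⟨q.reverse, hq.reverse, ?_, ?_⟩
      · intro e
        rw [hqe, Walk.edges_reverse, List.mem_reverse]
      · rw [Walk.snd_reverse]; exact (Set.mem_singleton_iff.1 h1).symm
  have hnil := hq'.not_nil
  have hcons := Walk.cons_tail_eq q' hnil
  rw [← hcons] at hq'
  rw [Walk.cons_isCycle_iff] at hq'
  have hE : ∀ e ∈ q'.tail.edges, e ∈ G.edgeSet := by
    intro e he
    have h1 := q'.tail.edges_subset_edgeSet he
    rw [edgeSet_sup] at h1
    rcases h1 with h1 | h1
    · exact h1
    · exfalso
      have h2 : e = s(x, q'.snd) := by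
        rw [hsnd]
        induction e with
        | _ a b =>
          rw [mem_edgeSet, edge_adj] at h1
          rcases h1.1 with ⟨rfl, rfl⟩ | ⟨rfl, rfl⟩
          · rfl
          · exact Sym2.eq_swap
      exact hq'.2 (h2 ▸ he)
  refine ⟨(q'.tail.transfer G hE).copy hsnd rfl, ?_, ?_⟩
  · rw [Walk.isPath_copy]
    exact hq'.1.transfer hE
  intro e
  rw [Walk.edges_copy, Walk.edges_transfer, hqe']
  conv_lhs => rw [← hcons]
  rw [Walk.edges_cons, List.mem_cons]
  have h3 : s(x, q'.snd) = s(x, y) := by rw [hsnd]
  exact or_congr_left (by rw [h3])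

lemma atMostOne_insert {n : ℕ} (A : Finset (Sym2 (Fin n))) (x y : Fin n)
    (hA : (fromEdgeSet (A : Set (Sym2 (Fin n)))).IsAcyclic) :
    AtMostOneCycle (A ∪ {s(x, y)}) := by
  have hgr : fromEdgeSet ((A ∪ {s(x, y)} : Finset (Sym2 (Fin n))) : Set (Sym2 (Fin n))) =
      fromEdgeSet (A : Set (Sym2 (Fin n))) ⊔ edge x y := by
    rw [Finset.coe_union, Finset.coe_singleton, fromEdgeSet_union]
    rfl
  unfold AtMostOneCycle
  rw [hgr]
  intro u v p q hp hq e
  obtain ⟨r, hr, hre⟩ := cyc_path hA p hp
  obtain ⟨t, ht, hte⟩ := cyc_path hA q hq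
  have : r = t := by
    have := (hA.subsingleton_path y x).elim ⟨r, hr⟩ ⟨t, ht⟩
    exact congrArg Subtype.val this
  rw [hre, hte, this]

/-! ### Class sizes and weights -/

variable {n : ℕ}

/-- size of the class of `x` under the labelling `f` -/
def sz (f : Fin n → Fin n) (x : Fin n) : ℕ := (univ.filter (fun y => f y = f x)).card

/-- sum of the squares of the class sizes -/
def S (f : Fin n → Fin n) : ℕ := ∑ x, sz f x

/-- weight of an edge: the product of the sizes of its two classes, `0` inside a class -/
def wt (f : Fin n → Fin n) : Sym2 (Fin n) → ℕ :=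
  Sym2.lift ⟨fun x y => if f x = f y then 0 else sz f x * sz f y, by
    intro x y
    by_cases h : f x = f y
    · simp [h]
    · simp [h, Ne.symm h, mul_comm]⟩

lemma wt_mk (f : Fin n → Fin n) (x y : Fin n) :
    wt f s(x, y) = if f x = f y then 0 else sz f x * sz f y := rfl

lemma sz_pos (f : Fin n → Fin n) (x : Fin n) : 0 < sz f x :=
  card_pos.2 ⟨x, by simp⟩

lemma n_le_S (f : Fin n → Fin n) : n ≤ S f := by
  calc n = ∑ _x : Fin n, 1 := by simp
    _ ≤ _ := sum_le_sum (fun x _ => sz_pos f x)

lemma exists_rep : ∃ rep : Sym2 (Fin n) → Fin n × Fin n, ∀ e, s((rep e).1, (rep e).2) = e := by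
  have : ∀ e : Sym2 (Fin n), ∃ p : Fin n × Fin n, s(p.1, p.2) = e := by
    intro e
    induction e with
    | _ a b => exact ⟨(a, b), rfl⟩
  choose rep hrep using this
  exact ⟨rep, hrep⟩

lemma sum_edges_le (D : Finset (Sym2 (Fin n))) (g : Sym2 (Fin n) → ℕ)
    (h : Fin n → Fin n → ℕ) (hg : ∀ x y, g s(x, y) ≤ h x y + h y x) :
    ∑ e ∈ D, g e ≤ 2 * ∑ x, ∑ y, h x y := by
  obtain ⟨rep, hrep⟩ := exists_rep (n := n)
  have hinj : Function.Injective rep := by
    intro a b hab
    rw [← hrep a, ← hrep b, hab]
  have h1 : ∀ k : Fin n → Fin n → ℕ, ∑ e ∈ D, k (rep e).1 (rep e).2 ≤ ∑ x, ∑ y, k x y := by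
    intro k
    rw [← Fintype.sum_prod_type']
    calc ∑ e ∈ D, k (rep e).1 (rep e).2 = ∑ p ∈ D.image rep, k p.1 p.2 := by
          rw [sum_image (fun a _ b _ hab => hinj hab)]
      _ ≤ _ := sum_le_sum_of_subset (subset_univ _)
  calc ∑ e ∈ D, g e ≤ ∑ e ∈ D, (h (rep e).1 (rep e).2 + h (rep e).2 (rep e).1) := by
        apply sum_le_sum
        intro e _
        calc g e = g s((rep e).1, (rep e).2) := by rw [hrep]
          _ ≤ _ := hg _ _
    _ = ∑ e ∈ D, h (rep e).1 (rep e).2 + ∑ e ∈ D, h (rep e).2 (rep e).1 := sum_add_distrib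
    _ ≤ ∑ x, ∑ y, h x y + ∑ x, ∑ y, h y x :=
        add_le_add (h1 h) (h1 (fun x y => h y x))
    _ = 2 * ∑ x, ∑ y, h x y := by
        rw [sum_comm (f := fun x y => h y x)]
        ring

lemma intra_card (f : Fin n → Fin n) (D : Finset (Sym2 (Fin n))) :
    (D.filter (fun e => wt f e = 0)).card ≤ S f := by
  obtain ⟨rep, hrep⟩ := exists_rep (n := n)
  have hinj : Function.Injective rep := by
    intro a b hab
    rw [← hrep a, ← hrep b, hab]
  have hS : S f = (univ.filter (fun p : Fin n × Fin n => f p.2 = f p.1)).card := by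
    rw [card_filter, Fintype.sum_prod_type]
    unfold S sz
    apply sum_congr rfl
    intro x _
    rw [card_filter]
  rw [hS]
  apply card_le_card_of_injOn rep
  · intro e he
    rw [mem_coe, mem_filter] at he
    rw [mem_coe, mem_filter]
    refine ⟨mem_univ _, ?_⟩
    have h0 := he.2
    rw [← hrep e, wt_mk] at h0
    by_contra hne
    rw [if_neg (Ne.symm hne)] at h0
    have := Nat.mul_pos (sz_pos f (rep e).1) (sz_pos f (rep e).2)
    omega
  · exact fun a _ b _ hab => hinj hab

/-- merging the class of `y0` into the class of `x0` -/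
def mer (f : Fin n → Fin n) (x0 y0 : Fin n) : Fin n → Fin n :=
  fun z => if f z = f y0 then f x0 else f z

/-- the increment of the class size of `z` -/
def al (f : Fin n → Fin n) (x0 y0 z : Fin n) : ℕ :=
  (if f z = f x0 then sz f y0 else 0) + (if f z = f y0 then sz f x0 else 0)

lemma sz_mer (f : Fin n → Fin n) (x0 y0 : Fin n) (h : f x0 ≠ f y0) (z : Fin n) :
    sz (mer f x0 y0) z = sz f z + al f x0 y0 z := by
  have hun : ∀ w : Fin n, (univ.filter (fun y => f y = f x0 ∨ f y = f y0)).card =
      sz f x0 + sz f y0 := by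
    intro w
    unfold sz
    rw [filter_or, card_union_of_disjoint]
    rw [disjoint_filter]
    intro y _ h1 h2
    exact h (h1.symm.trans h2)
  have key : sz (mer f x0 y0) z =
      if f z = f x0 ∨ f z = f y0 then sz f x0 + sz f y0 else sz f z := by
    by_cases hz : f z = f x0 ∨ f z = f y0
    · rw [if_pos hz, ← hun z]
      unfold sz
      congr 1
      ext y
      simp only [mem_filter, mem_univ, true_and]
      unfold mer
      rcases hz with hz | hz
      · have hz' : ¬ f z = f y0 := by rw [hz]; exact h
        rw [if_neg hz', hz]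
        by_cases hy : f y = f y0
        · simp [hy]
        · simp [hy]
      · rw [if_pos hz]
        by_cases hy : f y = f y0
        · simp [hy]
        · simp [hy]
    · rw [if_neg hz]
      push Not at hz
      unfold sz
      congr 1
      ext y
      simp only [mem_filter, mem_univ, true_and]
      unfold mer
      rw [if_neg hz.2]
      by_cases hy : f y = f y0
      · rw [if_pos hy, hy]
        constructor
        · intro h1; exact absurd h1.symm hz.1
        · intro h1; exact absurd h1.symm hz.2
      · rw [if_neg hy]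
  rw [key]
  unfold al
  by_cases h1 : f z = f x0
  · have h2 : ¬ f z = f y0 := by rw [h1]; exact h
    have h3 : sz f z = sz f x0 := by unfold sz; rw [h1]
    simp [h1, h, h3]
  · by_cases h2 : f z = f y0
    · have h3 : sz f z = sz f y0 := by unfold sz; rw [h2]
      simp [h2, Ne.symm h, h3, add_comm]
    · simp [h1, h2]

lemma sum_al (f : Fin n → Fin n) (x0 y0 : Fin n) :
    ∑ z, al f x0 y0 z = 2 * (sz f x0 * sz f y0) := by
  unfold al
  rw [sum_add_distrib, ← sum_filter, ← sum_filter, sum_const, sum_const, smul_eq_mul, smul_eq_mul]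
  have h1 : (univ.filter (fun y => f y = f x0)).card = sz f x0 := rfl
  have h2 : (univ.filter (fun y => f y = f y0)).card = sz f y0 := rfl
  rw [h1, h2]
  ring

lemma S_mer (f : Fin n → Fin n) (x0 y0 : Fin n) (h : f x0 ≠ f y0) :
    S (mer f x0 y0) = S f + 2 * (sz f x0 * sz f y0) := by
  unfold S
  rw [← sum_al, ← sum_add_distrib]
  exact sum_congr rfl (fun z _ => sz_mer f x0 y0 h z)

lemma wt_mer_le (f : Fin n → Fin n) (x0 y0 : Fin n) (h : f x0 ≠ f y0) (x y : Fin n) :
    wt (mer f x0 y0) s(x, y) ≤
      wt f s(x, y) + (al f x0 y0 x * sz f y + al f x0 y0 y * sz f x) := by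
  rw [wt_mk, wt_mk]
  by_cases h1 : mer f x0 y0 x = mer f x0 y0 y
  · rw [if_pos h1]; exact Nat.zero_le _
  · have h2 : f x ≠ f y := by
      intro h2
      apply h1
      unfold mer
      rw [h2]
    rw [if_neg h1, if_neg h2, sz_mer f x0 y0 h, sz_mer f x0 y0 h]
    have h3 : al f x0 y0 x * al f x0 y0 y = 0 := by
      by_contra h3
      apply h1
      have hx : f x = f x0 ∨ f x = f y0 := by
        by_contra hx
        push Not at hx
        apply h3
        unfold al
        simp [hx.1, hx.2]
      have hy : f y = f x0 ∨ f y = f y0 := by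
        by_contra hy
        push Not at hy
        apply h3
        unfold al
        simp [hy.1, hy.2]
      have hm : ∀ z : Fin n, (f z = f x0 ∨ f z = f y0) → mer f x0 y0 z = f x0 := by
        intro z hz
        unfold mer
        rcases hz with hz | hz
        · rw [if_neg (by rw [hz]; exact h), hz]
        · rw [if_pos hz]
      rw [hm x hx, hm y hy]
    nlinarith [h3]

/-- total weight of a set of edges -/
def W (f : Fin n → Fin n) (D : Finset (Sym2 (Fin n))) : ℕ := ∑ e ∈ D, wt f e

lemma W_mer (f : Fin n → Fin n) (x0 y0 : Fin n) (h : f x0 ≠ f y0)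
    (D : Finset (Sym2 (Fin n))) :
    W (mer f x0 y0) D ≤ W f D + 4 * (sz f x0 * sz f y0) * S f := by
  obtain ⟨g, hg⟩ : ∃ g : Sym2 (Fin n) → ℕ, ∀ x y, g s(x, y) =
      al f x0 y0 x * sz f y + al f x0 y0 y * sz f x :=
    ⟨Sym2.lift ⟨fun x y => al f x0 y0 x * sz f y + al f x0 y0 y * sz f x,
      fun x y => add_comm _ _⟩, fun x y => rfl⟩
  have h1 : W (mer f x0 y0) D ≤ W f D + ∑ e ∈ D, g e := by
    unfold W
    rw [← sum_add_distrib]
    apply sum_le_sum
    intro e _
    induction e with
    | _ x y =>
      rw [hg]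
      exact wt_mer_le f x0 y0 h x y
  have h2 : ∑ e ∈ D, g e ≤ 2 * ∑ x, ∑ y, al f x0 y0 x * sz f y :=
    sum_edges_le D g (fun x y => al f x0 y0 x * sz f y) (fun x y => le_of_eq (hg x y))
  have h3 : ∑ x, ∑ y, al f x0 y0 x * sz f y = 2 * (sz f x0 * sz f y0) * S f := by
    rw [← sum_al, sum_mul]
    unfold S
    exact sum_congr rfl (fun x _ => (mul_sum _ _ _).symm)
  rw [h3] at h2
  calc _ ≤ _ := h1
    _ ≤ W f D + 2 * (2 * (sz f x0 * sz f y0) * S f) := Nat.add_le_add_left h2 _
    _ = _ := by ring

lemma W_claimed (f : Fin n → Fin n) (D : Finset (Sym2 (Fin n))) (w B : ℕ)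
    (hw : ∀ e ∈ D, wt f e ≠ 0 → w ≤ wt f e) (hB : B + S f ≤ D.card) : B * w ≤ W f D := by
  have h1 := intra_card f D
  have h2 := card_filter_add_card_filter_not (s := D) (fun e => wt f e = 0)
  calc B * w ≤ (D.filter (fun e => ¬ wt f e = 0)).card * w :=
        Nat.mul_le_mul_right _ (by omega)
    _ = ∑ _e ∈ D.filter (fun e => ¬ wt f e = 0), w := by rw [sum_const, smul_eq_mul]
    _ ≤ ∑ e ∈ D.filter (fun e => ¬ wt f e = 0), wt f e := by
        apply sum_le_sum
        intro e he
        rw [mem_filter] at he
        exact hw e he.1 he.2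
    _ ≤ W f D := sum_le_sum_of_subset (filter_subset _ _)

/-! ### The invariant -/

/-- the invariant of Avoider's strategy, with `b = B + 2 n` -/
def Inv (B : ℕ) (A U : Finset (Sym2 (Fin n))) : Prop :=
  (fromEdgeSet (A : Set (Sym2 (Fin n)))).IsAcyclic ∧ (∀ e ∈ U, ¬ e.IsDiag) ∧
    ∃ f : Fin n → Fin n, (∀ x y, s(x, y) ∈ A → f x = f y) ∧
      B * S f + 2 * W f U + 8 * n * n ≤ B * n + n * n + 8 * n * S f

lemma reach_label (A : Finset (Sym2 (Fin n))) (f : Fin n → Fin n)
    (hf : ∀ x y, s(x, y) ∈ A → f x = f y) (x y : Fin n)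
    (h : (fromEdgeSet (A : Set (Sym2 (Fin n)))).Reachable x y) : f x = f y := by
  obtain ⟨p⟩ := h
  induction p with
  | nil => rfl
  | cons hadj _ ih =>
    rw [fromEdgeSet_adj] at hadj
    exact (hf _ _ (by exact_mod_cast hadj.1)).trans ih

lemma acyclic_atMostOne (A : Finset (Sym2 (Fin n)))
    (hA : (fromEdgeSet (A : Set (Sym2 (Fin n)))).IsAcyclic) : AtMostOneCycle A :=
  fun _ _ p _ hp _ => absurd hp (hA p)

lemma S_le (B : ℕ) (hB : 9 * n ≤ B) (hn : 0 < n) (s w : ℕ) (h1 : n ≤ s)
    (h : B * s + 2 * w + 8 * n * n ≤ B * n + n * n + 8 * n * s) : s ≤ 2 * n := by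
  obtain ⟨c, rfl⟩ := Nat.exists_eq_add_of_le hB
  obtain ⟨d, rfl⟩ := Nat.exists_eq_add_of_le h1
  by_contra hd
  push Not at hd
  have hd' : n + 1 ≤ d := by omega
  nlinarith [Nat.mul_le_mul_left n hd', Nat.zero_le (c * d)]

theorem wins (n b B : ℕ) (mono : Bool) (hb : b = B + 2 * n) (hB : 9 * n ≤ B) :
    ∀ k : ℕ, ∀ A U : Finset (Sym2 (Fin n)), U.card ≤ k → Inv B A U →
      AvoiderWins n b mono A U := by
  intro k
  induction k with
  | zero =>
    intro A U hU hI
    have : U = ∅ := card_eq_zero.1 (by omega)
    subst this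
    exact AvoiderWins.over A (acyclic_atMostOne A hI.1)
  | succ k ih =>
    intro A U hU hI
    obtain ⟨hac, hdiag, f, hf, hpot⟩ := hI
    rcases U.eq_empty_or_nonempty with rfl | hne
    · exact AvoiderWins.over A (acyclic_atMostOne A hac)
    have hn : 0 < n := by
      obtain ⟨e, he⟩ := hne
      induction e with
      | _ a c => exact Fin.pos a
    have hS := S_le B hB hn (S f) (W f U) (n_le_S f) hpot
    have hlegal : ∀ e ∈ U, Legal mono 1 U {e} := by
      intro e he
      have hc : 1 ≤ U.card := card_pos.2 hne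
      refine ⟨singleton_subset_iff.2 he, ?_⟩
      rw [card_singleton, Nat.min_eq_left hc]
      simp
    have hlast : ∀ X Y : Finset (Sym2 (Fin n)), Legal mono b (U \ X) Y → (U \ X).card ≤ b →
        (U \ X) \ Y = ∅ := by
      intro X Y hY hc
      have h1 : (U \ X).card ≤ Y.card := by
        have h2 := hY.2
        rw [Nat.min_eq_right hc] at h2
        cases mono
        · simp only [Bool.false_eq_true, if_false] at h2
          omega
        · simp only [if_true] at h2
          exact h2
      rw [eq_of_subset_of_card_le hY.1 h1, sdiff_self]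
      rfl
    have hcardY : ∀ X Y : Finset (Sym2 (Fin n)), Legal mono b (U \ X) Y → b < (U \ X).card →
        b ≤ Y.card := by
      intro X Y hY hc
      have h2 := hY.2
      rw [Nat.min_eq_left hc.le] at h2
      cases mono
      · simp only [Bool.false_eq_true, if_false] at h2
        omega
      · simp only [if_true] at h2
        exact h2
    by_cases hex : (U.filter (fun e => wt f e ≠ 0)).Nonempty
    · -- there is an unclaimed edge between two classes
      obtain ⟨e0, he0, hmin⟩ := exists_min_image _ (wt f) hex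
      rw [mem_filter] at he0
      obtain ⟨x0, y0, rfl⟩ : ∃ x0 y0, e0 = s(x0, y0) := by
        induction e0 with
        | _ a c => exact ⟨a, c, rfl⟩
      have hxy : f x0 ≠ f y0 := by
        intro h
        apply he0.2
        rw [wt_mk, if_pos h]
      have hw : wt f s(x0, y0) = sz f x0 * sz f y0 := by rw [wt_mk, if_neg hxy]
      have hgr : fromEdgeSet ((A ∪ {s(x0, y0)} : Finset (Sym2 (Fin n))) : Set (Sym2 (Fin n))) =
          fromEdgeSet (A : Set (Sym2 (Fin n))) ⊔ edge x0 y0 := by
        rw [Finset.coe_union, Finset.coe_singleton, fromEdgeSet_union]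
        rfl
      have hac' : (fromEdgeSet ((A ∪ {s(x0, y0)} : Finset (Sym2 (Fin n))) :
          Set (Sym2 (Fin n)))).IsAcyclic := by
        rw [hgr]
        exact hac.sup_edge_of_not_reachable
          (fun hr => hxy (reach_label A f hf x0 y0 hr))
      refine AvoiderWins.move A U {s(x0, y0)} hne (hlegal _ he0.1) ?_
      intro Y hY
      by_cases hc : (U \ {s(x0, y0)}).card ≤ b
      · rw [hlast _ _ hY hc]
        exact AvoiderWins.over _ (acyclic_atMostOne _ hac')
      push Not at hc
      have hYc := hcardY _ _ hY hc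
      have hYU : Y ⊆ U := fun e he => (mem_sdiff.1 (hY.1 he)).1
      have hYe : s(x0, y0) ∉ Y := fun he => (mem_sdiff.1 (hY.1 he)).2 (mem_singleton_self _)
      apply ih
      · have h1 : ((U \ {s(x0, y0)}) \ Y).card ≤ (U \ {s(x0, y0)}).card :=
          card_le_card sdiff_subset
        have h2 : (U \ {s(x0, y0)}).card = U.card - 1 := by
          rw [card_sdiff_of_subset (singleton_subset_iff.2 he0.1), card_singleton]
        omega
      refine ⟨hac', ?_, mer f x0 y0, ?_, ?_⟩
      · intro e he
        exact hdiag e (mem_sdiff.1 (mem_sdiff.1 he).1).1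
      · intro x y hA
        rw [mem_union, mem_singleton] at hA
        rcases hA with hA | hA
        · unfold mer
          rw [hf x y hA]
        · have h3 : mer f x0 y0 x0 = f x0 := by
            unfold mer; rw [if_neg hxy]
          have h4 : mer f x0 y0 y0 = f x0 := by
            unfold mer; rw [if_pos rfl]
          rw [Sym2.eq_iff] at hA
          rcases hA with ⟨rfl, rfl⟩ | ⟨rfl, rfl⟩
          · rw [h3, h4]
          · rw [h3, h4]
      · -- the potential
        have h1 := W_mer f x0 y0 hxy ((U \ {s(x0, y0)}) \ Y)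
        have h2 : W f ((U \ {s(x0, y0)}) \ Y) + W f (insert s(x0, y0) Y) = W f U := by
          unfold W
          have h3 : (U \ {s(x0, y0)}) \ Y = U \ (insert s(x0, y0) Y) := by
            ext e
            simp only [mem_sdiff, mem_singleton, mem_insert]
            tauto
          rw [h3]
          exact sum_sdiff (insert_subset he0.1 hYU)
        have h4 : B * (sz f x0 * sz f y0) ≤ W f (insert s(x0, y0) Y) := by
          apply W_claimed
          · intro e he hne0
            rw [← hw]
            apply hmin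
            rw [mem_filter]
            refine ⟨?_, hne0⟩
            rw [mem_insert] at he
            rcases he with rfl | he
            · exact he0.1
            · exact hYU he
          · rw [card_insert_of_notMem hYe]
            omega
        rw [S_mer f x0 y0 hxy]
        obtain ⟨w, hwdef⟩ : ∃ w, w = sz f x0 * sz f y0 := ⟨_, rfl⟩
        rw [← hwdef] at h1 h4 ⊢
        obtain ⟨s, hs⟩ : ∃ s, s = S f := ⟨_, rfl⟩
        rw [← hs] at h1 hpot hS ⊢
        nlinarith [Nat.mul_le_mul_left w hS]
    · -- all unclaimed edges lie inside classes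
      rw [not_nonempty_iff_eq_empty, filter_eq_empty_iff] at hex
      obtain ⟨e, he⟩ := hne
      refine AvoiderWins.move A U {e} ⟨e, he⟩ (hlegal e he) ?_
      intro Y hY
      have h1 : U.card ≤ S f := by
        have h2 := intra_card f U
        have h3 : U.filter (fun e => wt f e = 0) = U := by
          rw [filter_eq_self]
          intro e' he'
          by_contra h4
          exact hex he' h4
        rwa [h3] at h2
      have hc : (U \ {e}).card ≤ b := by
        have h2 : (U \ {e}).card ≤ U.card := card_le_card sdiff_subset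
        omega
      rw [hlast _ _ hY hc]
      apply AvoiderWins.over
      obtain ⟨x0, y0, rfl⟩ : ∃ x0 y0, e = s(x0, y0) := by
        induction e with
        | _ a c => exact ⟨a, c, rfl⟩
      exact atMostOne_insert A x0 y0 hac

/-- **Theorem.**  For all `n` and all `b ≥ 12 n`, under the strict and under the monotone rules,
Avoider, who moves first, has a strategy in the `(1 : b)` game on the edge set of `K_n` that
guarantees that his final graph contains at most one cycle. -/
theorem result (n b : ℕ) (hb : 12 * n ≤ b) (mono : Bool) :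
    AvoiderWins n b mono ∅ (⊤ : SimpleGraph (Fin n)).edgeFinset := by
  obtain ⟨B, hB⟩ : ∃ B, b = B + 2 * n := ⟨b - 2 * n, by omega⟩
  apply wins n b B mono hB (by omega) _ _ _ le_rfl
  refine ⟨?_, ?_, id, ?_, ?_⟩
  · rw [Finset.coe_empty, fromEdgeSet_empty]
    exact isAcyclic_bot
  · intro e he
    rw [mem_edgeFinset] at he
    exact not_isDiag_of_mem_edgeSet _ he
  · intro x y h
    exact absurd h (notMem_empty _)
  · have hsz : ∀ x : Fin n, sz id x = 1 := by
      intro x
      unfold sz
      rw [card_eq_one]
      exact ⟨x, by ext y; simp⟩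
    have hS : S (n := n) id = n := by
      unfold S
      simp [hsz]
    have hW : W id (⊤ : SimpleGraph (Fin n)).edgeFinset ≤ n.choose 2 := by
      unfold W
      calc ∑ e ∈ (⊤ : SimpleGraph (Fin n)).edgeFinset, wt id e ≤
          ∑ _e ∈ (⊤ : SimpleGraph (Fin n)).edgeFinset, 1 := by
            apply sum_le_sum
            intro e _
            induction e with
            | _ x y =>
              rw [wt_mk, hsz, hsz]
              split_ifs <;> omega
        _ = n.choose 2 := by
            rw [sum_const, smul_eq_mul, mul_one, card_edgeFinset_top_eq_card_choose_two,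
              Fintype.card_fin]
    have hch : 2 * n.choose 2 ≤ n * n := by
      rw [Nat.choose_two_right]
      calc 2 * (n * (n - 1) / 2) ≤ n * (n - 1) := Nat.mul_div_le _ _
        _ ≤ n * n := Nat.mul_le_mul_left _ (Nat.sub_le _ _)
    rw [hS]
    omega

end Pool.Agent.Results.MP_24f62a_co.LinearBias
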